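import Mathlib
import Pool.Agent.L7h44.TW.Color
import Pool.Agent.L7h44.TW.Upper

/-!
# MP_3aefc9_co: `r_k(k+1)` grows like a tower whose height is linear in `k`

There is a constant `c > 0` with `r_k(k+1) ≥ twr(c k)` for all large `k`; together with the upper
bound of Erdős and Rado the tower height is linear in `k`.

Idea of the lower bound: a stepping-up lemma which leads from a good 2-colouring for
`(k - 75)`-subsets of a set of `15 N` elements to one for `k`-subsets of a set of `2 ^ N` elements.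
For `x_1 < ⋯ < x_k` below `2 ^ N` let `δ_i` be the top binary digit in which `x_i`, `x_{i+1}`
differ. The internal local maxima of the sequence `δ` split it into blocks, in which `δ` first
decreases and then increases. If there are at least 16 blocks the colour is a parity computed from
the sizes of the blocks 1, …, 9. If there are at most 15 blocks, the colour is the given colour of
a set of recorded entries (all but at most four entries of every block, labelled by the block)
times a sign computed from the sizes. Deleting an element either reduces the size of a block by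
one, or it removes a block of size one together with the adjacent peak, which joins a
neighbouring block.
-/

namespace Pool.Agent.Results.MP_3aefc9_co.TowerGrowth

open Pool.Agent.L7h44.TW

/-- The tower function: `twr 1 = 2`, `twr (i + 1) = 2 ^ twr i`. -/
def twr : ℕ → ℕ
  | 0 => 1
  | i + 1 => 2 ^ twr i

/-- Every red/blue colouring (`true`/`false`) of the edges of the complete `k`-graph on `n`
vertices has a red copy of the complete `k`-graph on `s` vertices or a blue copy of the complete
`k`-graph on `t` vertices. -/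
def Arrows (k s t n : ℕ) : Prop :=
  ∀ c : {e : Finset (Fin n) // e.card = k} → Bool,
    (∃ S : Finset (Fin n), S.card = s ∧
      ∀ e : {e : Finset (Fin n) // e.card = k}, e.1 ⊆ S → c e = true) ∨
    (∃ S : Finset (Fin n), S.card = t ∧
      ∀ e : {e : Finset (Fin n) // e.card = k}, e.1 ⊆ S → c e = false)

/-- The Ramsey number `r_k(s, t)`. -/
noncomputable def ramsey (k s t : ℕ) : ℕ := sInf {n | Arrows k s t n}

theorem twr_lt_succ (i : ℕ) : twr i < twr (i + 1) := Nat.lt_two_pow_self

theorem twr_mono : Monotone twr := monotone_nat_of_le_succ fun i => (twr_lt_succ i).le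

theorem one_le_twr (i : ℕ) : 1 ≤ twr i := twr_mono (Nat.zero_le i)

theorem good_mono {a a' M M' : ℕ} (h : Good a M) (ha : a ≤ a') (hM : M' ≤ M) : Good a' M' := by
  obtain ⟨φ, hφ⟩ := h
  exact ⟨φ, fun S hS hc => hφ S (hS.trans (Finset.range_mono hM)) (by omega)⟩

theorem good_iter (t : ℕ) (ht : 1 ≤ t) : Good (75 * t + 60) (15 * (twr t + 7)) := by
  induction t, ht using Nat.le_induction with
  | base =>
    refine ⟨fun _ => true, fun S hS hc => ?_⟩
    have h1 := Finset.card_le_card hS
    rw [Finset.card_range] at h1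
    have h2 : twr 1 = 2 := rfl
    omega
  | succ t ht ih =>
    refine good_mono (step ih) (by omega) ?_
    have h1 : twr (t + 1) = 2 ^ twr t := rfl
    have h2 := one_le_twr (t + 1)
    rw [pow_add, ← h1]
    norm_num
    omega

theorem good_lt {k M n : ℕ} (h : Good k M) (hn : Arrows k (k + 1) (k + 1) n) : M < n := by
  by_contra hcon
  obtain ⟨φ, hφ⟩ := h
  set c : {e : Finset (Fin n) // e.card = k} → Bool :=
    fun e => φ (e.1.map Fin.valEmbedding) with hc
  obtain ⟨S, hS, b, hb⟩ : ∃ S : Finset (Fin n), S.card = k + 1 ∧ ∃ b,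
      ∀ e : {e : Finset (Fin n) // e.card = k}, e.1 ⊆ S → c e = b := by
    rcases hn c with ⟨S, h1, h2⟩ | ⟨S, h1, h2⟩
    · exact ⟨S, h1, true, h2⟩
    · exact ⟨S, h1, false, h2⟩
  have hsub : S.map Fin.valEmbedding ⊆ Finset.range M := by
    intro x hx
    obtain ⟨y, _, rfl⟩ := Finset.mem_map.1 hx
    rw [Finset.mem_range]
    have := y.2
    simp only [Fin.valEmbedding_apply]
    omega
  obtain ⟨s, hs, t, ht, hne⟩ := hφ _ hsub (by rw [Finset.card_map, hS])
  obtain ⟨s, hs', rfl⟩ := Finset.mem_map.1 hs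
  obtain ⟨t, ht', rfl⟩ := Finset.mem_map.1 ht
  rw [← Finset.map_erase, ← Finset.map_erase] at hne
  apply hne
  have e1 : c ⟨S.erase s, by rw [Finset.card_erase_of_mem hs', hS]; rfl⟩ = b :=
    hb _ (Finset.erase_subset _ _)
  have e2 : c ⟨S.erase t, by rw [Finset.card_erase_of_mem ht', hS]; rfl⟩ = b :=
    hb _ (Finset.erase_subset _ _)
  simp only [hc] at e1 e2
  rw [e1, e2]

theorem arrows_of_arr {k n : ℕ} (h : Arr k n) : Arrows k (k + 1) (k + 1) n := by
  classical
  intro c
  obtain ⟨S, hS, hSc, b, hb⟩ := h (fun T =>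
    if h : (Finset.univ.filter (fun i : Fin n => (i : ℕ) ∈ T)).card = k
    then c ⟨Finset.univ.filter (fun i : Fin n => (i : ℕ) ∈ T), h⟩ else false)
  have hmono : ∃ S : Finset (Fin n), S.card = k + 1 ∧
      ∀ e : {e : Finset (Fin n) // e.card = k}, e.1 ⊆ S → c e = b := by
    refine ⟨Finset.univ.filter (fun i : Fin n => (i : ℕ) ∈ S), ?_, ?_⟩
    · rw [← hSc, ← Finset.card_map Fin.valEmbedding]
      congr 1
      ext x
      simp only [Finset.mem_map, Finset.mem_filter, Finset.mem_univ, true_and,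
        Fin.valEmbedding_apply]
      constructor
      · rintro ⟨i, hi, rfl⟩; exact hi
      · intro hx
        exact ⟨⟨x, Finset.mem_range.1 (hS hx)⟩, hx, rfl⟩
    · rintro ⟨e, he⟩ heS
      have hsub : e.map Fin.valEmbedding ⊆ S := by
        intro x hx
        obtain ⟨i, hi, rfl⟩ := Finset.mem_map.1 hx
        exact (Finset.mem_filter.1 (heS hi)).2
      have h1 := hb _ hsub (by rw [Finset.card_map, he])
      have h2 : Finset.univ.filter (fun i : Fin n => (i : ℕ) ∈ e.map Fin.valEmbedding) = e := by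
        ext i
        simp only [Finset.mem_filter, Finset.mem_univ, true_and, Finset.mem_map,
          Fin.valEmbedding_apply]
        constructor
        · rintro ⟨j, hj, hji⟩
          rwa [← Fin.ext hji]
        · intro hi
          exact ⟨i, hi, rfl⟩
      simp only [h2, he, dif_pos] at h1
      exact h1
  rcases hmono with ⟨S, h1, h2⟩
  cases b with
  | true => exact Or.inl ⟨S, h1, h2⟩
  | false => exact Or.inr ⟨S, h1, h2⟩

theorem arr_iter (k : ℕ) : ∃ n, Arr k n ∧ 4 * (n + 1) ≤ twr (2 * k + 3) := by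
  induction k with
  | zero => exact ⟨1, arr_zero, by decide⟩
  | succ k ih =>
    obtain ⟨n, h1, h2⟩ := ih
    refine ⟨_, arr_succ h1, ?_⟩
    have e : twr (2 * (k + 1) + 3) = 2 ^ (2 ^ twr (2 * k + 3)) := rfl
    rw [e]
    have a1 : 2 ^ (4 * (n + 1)) ≤ 2 ^ twr (2 * k + 3) := Nat.pow_le_pow_right (by norm_num) h2
    have a2 : 2 ^ n + n + 3 ≤ 2 ^ (4 * (n + 1)) := by
      have b1 : n < 2 ^ n := Nat.lt_two_pow_self
      have b2 : 2 ^ (n + 3) ≤ 2 ^ (4 * (n + 1)) := Nat.pow_le_pow_right (by norm_num) (by omega)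
      have b3 : 2 ^ (n + 3) = 8 * 2 ^ n := by rw [pow_add]; ring
      omega
    have a3 : 2 ^ (2 ^ n + n + 3) ≤ 2 ^ (2 ^ twr (2 * k + 3)) :=
      Nat.pow_le_pow_right (by norm_num) (a2.trans a1)
    have a4 : 2 ^ (2 ^ n + n + 3) = 8 * 2 ^ (2 ^ n + n) := by rw [pow_add _ _ 3]; ring
    have a5 : 1 ≤ 2 ^ (2 ^ n + n) := Nat.one_le_two_pow
    omega

theorem ramsey_mem (k : ℕ) : Arrows k (k + 1) (k + 1) (ramsey k (k + 1) (k + 1)) := by
  obtain ⟨n, h, _⟩ := arr_iter k
  have hne : {n | Arrows k (k + 1) (k + 1) n}.Nonempty := ⟨n, arrows_of_arr h⟩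
  exact Nat.sInf_mem hne

/-- **The growth of `r_k(k+1)`.** For all `k ≥ 135` the Ramsey number `r_k(k+1)` is larger than
`twr ⌊(k - 60) / 75⌋`, for all `k` it is at most `twr (2 k + 3)`, and there is a constant `c > 0`
with `r_k(k+1) ≥ twr ⌈c k⌉` for all sufficiently large `k`. -/
theorem result :
    (∀ k : ℕ, 135 ≤ k → twr ((k - 60) / 75) < ramsey k (k + 1) (k + 1)) ∧
    (∀ k : ℕ, ramsey k (k + 1) (k + 1) ≤ twr (2 * k + 3)) ∧
    (∃ c : ℝ, 0 < c ∧ ∃ k₀ : ℕ, ∀ k : ℕ, k₀ ≤ k →
      twr ⌈c * (k : ℝ)⌉₊ ≤ ramsey k (k + 1) (k + 1)) := by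
  have hlow : ∀ k : ℕ, 135 ≤ k → twr ((k - 60) / 75) < ramsey k (k + 1) (k + 1) := by
    intro k hk
    have h1 := good_iter ((k - 60) / 75) (by omega)
    have h2 : Good k (15 * (twr ((k - 60) / 75) + 7)) := good_mono h1 (by omega) le_rfl
    have h3 := good_lt h2 (ramsey_mem k)
    omega
  refine ⟨hlow, ?_, 1 / 135, by norm_num, 500, ?_⟩
  · intro k
    obtain ⟨n, h1, h2⟩ := arr_iter k
    have : ramsey k (k + 1) (k + 1) ≤ n := Nat.sInf_le (arrows_of_arr h1)
    omega
  · intro k hk
    refine le_trans (twr_mono ?_) (hlow k (by omega)).le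
    rw [Nat.ceil_le]
    have h : k ≤ 135 * ((k - 60) / 75) := by omega
    have h' : (k : ℝ) ≤ 135 * (((k - 60) / 75 : ℕ) : ℝ) := by exact_mod_cast h
    linarith

end Pool.Agent.Results.MP_3aefc9_co.TowerGrowth
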